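import Mathlib

namespace Pool.Agent.Results.MP_cfc379_co.No

open Finset Matrix

/-- real symmetric matrices whose off-diagonal support is the edge set of `G` -/
def InS {n : ℕ} (G : SimpleGraph (Fin n)) (A : Matrix (Fin n) (Fin n) ℝ) : Prop :=
  A.IsSymm ∧ ∀ i j, i ≠ j → (A i j ≠ 0 ↔ G.Adj i j)

/-- maximum nullity -/
noncomputable def M {n : ℕ} (G : SimpleGraph (Fin n)) : ℕ :=
  sSup {k | ∃ A, InS G A ∧ k = Module.finrank ℝ (LinearMap.ker (Matrix.toLin' A))}

/-- vertices filled from `B` by the colour change rule -/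
inductive Filled {n : ℕ} (G : SimpleGraph (Fin n)) (B : Finset (Fin n)) : Fin n → Prop
  | base (v : Fin n) : v ∈ B → Filled G B v
  | force (u w : Fin n) : Filled G B u → G.Adj u w → (∀ x, G.Adj u x → x ≠ w → Filled G B x) →
      Filled G B w

/-- zero forcing number -/
noncomputable def Z {n : ℕ} (G : SimpleGraph (Fin n)) : ℕ :=
  sInf {k | ∃ B : Finset (Fin n), (∀ v, Filled G B v) ∧ B.card = k}

def E : List (Fin 14 × Fin 14) :=
  [(0, 8), (0, 11), (0, 12), (1, 7), (1, 8), (1, 11), (2, 7), (2, 12), (2, 13), (3, 8), (3, 11),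
    (3, 13), (4, 9), (4, 11), (4, 12), (5, 8), (5, 10), (5, 12), (6, 7), (6, 11), (6, 13)]

def G : SimpleGraph (Fin 14) where
  Adj u v := (u, v) ∈ E ∨ (v, u) ∈ E
  symm := ⟨fun _ _ h => h.symm⟩
  loopless := ⟨by decide⟩

instance : DecidableRel G.Adj := fun u v => inferInstanceAs (Decidable ((u, v) ∈ E ∨ (v, u) ∈ E))

def forts : List (List (Fin 14)) :=
  [[1, 3, 6], [7, 8, 11, 12], [2, 4, 6, 9], [0, 4, 5, 9, 10], [0, 1, 2, 3], [0, 2, 5, 6, 10],
    [8, 11, 12, 13], [7, 10, 11, 12, 13], [7, 8, 9, 12, 13], [7, 8, 9, 10, 11, 13],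
    [1, 2, 3, 4, 9], [0, 1, 2, 6], [0, 2, 3, 6], [1, 3, 7, 13], [0, 1, 5, 7, 8, 10, 13],
    [0, 3, 5, 7, 8, 10, 13], [0, 1, 4, 7, 9, 11, 13], [0, 3, 4, 7, 9, 11, 13], [1, 2, 5, 6, 10],
    [2, 3, 5, 6, 10]]

theorem f1 : ∀ F ∈ forts, (∃ v, v ∈ F) ∧
    ∀ u w, u ∉ F → w ∈ F → G.Adj u w → ∃ x, G.Adj u x ∧ x ≠ w ∧ x ∈ F := by decide +kernel

theorem f2' : ∀ a b c d : Fin 14, (forts.any fun F =>
    !F.contains a && !F.contains b && !F.contains c && !F.contains d) = true := by decide +kernel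

theorem f2 (a b c d : Fin 14) : ∃ F ∈ forts, a ∉ F ∧ b ∉ F ∧ c ∉ F ∧ d ∉ F := by
  simpa [and_assoc] using f2' a b c d

theorem zf (B : Finset (Fin 14)) (h : ∀ v, Filled G B v) : 5 ≤ B.card := by
  by_contra hc
  obtain ⟨F, hF, h0, h1, h2, h3⟩ := f2 (B.toList.getD 0 0) (B.toList.getD 1 0) (B.toList.getD 2 0)
    (B.toList.getD 3 0)
  have hB : ∀ v ∈ B, v ∉ F := by
    intro v hv
    obtain ⟨i, hi, rfl⟩ := List.getElem_of_mem (mem_toList.mpr hv)
    have hl := length_toList B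
    rw [← List.getD_eq_getElem _ 0 hi]
    have : i < 4 := by omega
    interval_cases i <;> assumption
  obtain ⟨⟨v, hv⟩, hf⟩ := f1 F hF
  have key : ∀ v, Filled G B v → v ∉ F := by
    intro v hv
    induction hv with
    | base v hv => exact hB v hv
    | force u w _ huw _ ih1 ih2 =>
      intro hw
      obtain ⟨x, h1, h2, h3⟩ := hf u w ih1 hw huw
      exact ih2 x h1 h2 h3
  exact key v (h v) hv

def chk (b : Bool) : List (Fin 14) → List (Fin 14 × Fin 14) → Bool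
  | S, [] => decide (∀ v, v ∈ S)
  | S, (v, w) :: r => decide ((G.Adj v w ∨ (v = w ∧ v = 0 ∧ b = true)) ∧
      ∀ u, u ≠ w → u ∈ S ∨ (u ≠ v ∧ ¬ G.Adj v u) ∨ (u = v ∧ v = 0 ∧ b = false)) && chk b (w :: S) r

theorem chk_ok {A : Matrix (Fin 14) (Fin 14) ℝ} (hA : InS G A) (b : Bool) (hb : b = true ↔ A 0 0 ≠ 0)
    (x : Fin 14 → ℝ) (hx : A *ᵥ x = 0) : ∀ (r : List (Fin 14 × Fin 14)) (S : List (Fin 14)),
    chk b S r = true → (∀ v ∈ S, x v = 0) → x = 0
  | [], S, h, hS => funext fun v => hS v (by simp only [chk, decide_eq_true_eq] at h; exact h v)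
  | (v, w) :: r, S, h, hS => by
    simp only [chk, Bool.and_eq_true, decide_eq_true_eq] at h
    obtain ⟨⟨h1, h2⟩, h3⟩ := h
    refine chk_ok hA b hb x hx r (w :: S) h3 fun y hy => ?_
    rcases List.mem_cons.mp hy with rfl | hy
    swap
    · exact hS y hy
    have e := congrFun hx v
    simp only [mulVec, dotProduct, Pi.zero_apply] at e
    rw [sum_eq_single y (fun u _ hu => ?_) (by simp)] at e
    · refine (mul_eq_zero.mp e).resolve_left ?_
      rcases h1 with h1 | ⟨rfl, rfl, h1⟩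
      · exact (hA.2 _ _ h1.ne).mpr h1
      · exact hb.mp h1
    · rcases h2 u hu with h4 | ⟨h4, h5⟩ | ⟨rfl, rfl, h4⟩
      · simp [hS u h4]
      · have : A v u = 0 := by
          by_contra hc
          exact h5 ((hA.2 _ _ (Ne.symm h4)).mp hc)
        simp [this]
      · have : A 0 0 = 0 := by
          by_contra hc
          simp [hb.mpr hc] at h4
        simp [this]

theorem nul {A : Matrix (Fin 14) (Fin 14) ℝ} (s : Fin 4 → Fin 14)
    (h : ∀ x, A *ᵥ x = 0 → (∀ i, x (s i) = 0) → x = 0) :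
    Module.finrank ℝ (LinearMap.ker (Matrix.toLin' A)) ≤ 4 := by
  have := LinearMap.finrank_le_finrank_of_injective
    (f := (LinearMap.funLeft ℝ ℝ s).comp (LinearMap.ker (Matrix.toLin' A)).subtype) (by
      rw [← LinearMap.ker_eq_bot, LinearMap.ker_eq_bot']
      intro x hx
      exact Subtype.ext (h x.1 (by rw [← Matrix.toLin'_apply]; exact x.2) fun i => congrFun hx i))
  simpa using this

theorem mle : M G ≤ 4 := by
  refine csSup_le' ?_
  rintro k ⟨A, hA, rfl⟩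
  by_cases h : A 0 0 = 0
  · refine nul ![1, 2, 8, 10] fun x hx h0 => chk_ok hA false (by simp [h]) x hx
      [(10, 5), (5, 12), (0, 11), (1, 7), (2, 13), (7, 6), (13, 3), (8, 0), (11, 4), (4, 9)]
      [1, 2, 8, 10] (by decide +kernel) ?_
    simp only [List.mem_cons, List.not_mem_nil, or_false]
    rintro v (rfl | rfl | rfl | rfl)
    exacts [h0 0, h0 1, h0 2, h0 3]
  · refine nul ![1, 2, 7, 8] fun x hx h0 => chk_ok hA true (by simp [h]) x hx
      [(1, 11), (7, 6), (6, 13), (13, 3), (2, 12), (0, 0), (8, 5), (11, 4), (4, 9), (5, 10)]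
      [1, 2, 7, 8] (by decide +kernel) ?_
    simp only [List.mem_cons, List.not_mem_nil, or_false]
    rintro v (rfl | rfl | rfl | rfl)
    exacts [h0 0, h0 1, h0 2, h0 3]

theorem result : ∃ (n : ℕ) (G : SimpleGraph (Fin n)) (X Y : Finset (Fin n)), G.Connected ∧
    Disjoint X Y ∧ X ∪ Y = univ ∧ (∀ u v, G.Adj u v → (u ∈ X ∧ v ∈ Y) ∨ (u ∈ Y ∧ v ∈ X)) ∧
    Y.card ≤ X.card ∧ (∀ x ∈ X, (G.neighborSet x).ncard = 3) ∧ M G < Z G := by
  refine ⟨14, G, {0, 1, 2, 3, 4, 5, 6}, {7, 8, 9, 10, 11, 12, 13}, by decide +kernel, by decide,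
    by decide, by decide +kernel, by decide, fun x hx => ?_, ?_⟩
  · have : ∀ x ∈ ({0, 1, 2, 3, 4, 5, 6} : Finset (Fin 14)), (G.neighborFinset x).card = 3 := by
      decide +kernel
    rw [← SimpleGraph.coe_neighborFinset, Set.ncard_coe_finset, this x hx]
  · have : 5 ≤ Z G := by
      refine le_csInf ⟨_, univ, fun v => .base v (mem_univ v), rfl⟩ ?_
      rintro k ⟨B, hB, rfl⟩
      exact zf B hB
    have := mle
    omega

end Pool.Agent.Results.MP_cfc379_co.No
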